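import Pool.Agent.V11297.CycloPQ3

/-!
# `p` divides `B(p q ^ b)` for all primes `p < q`
-/

open Polynomial

namespace Pool.Agent.Results.MP_b384de_nt.DividesMaxHeight

open Pool.Agent.V11297

/-- For all primes `p < q` and all `b ≥ 1` the largest height `B` of a divisor of
`X ^ (p q ^ b) - 1` in `ℤ[X]` exists and is divisible by `p`. -/
theorem result (p q b : ℕ) (hp : p.Prime) (hq : q.Prime) (hpq : p < q) (hb : 1 ≤ b) :
    ∃ B : ℕ, IsGreatest {h : ℕ | ∃ f : ℤ[X], f ∣ X ^ (p * q ^ b) - 1 ∧ height f = h} B ∧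
      p ∣ B := by
  obtain ⟨b', rfl⟩ : ∃ b', b = b' + 1 := ⟨b - 1, by omega⟩
  exact ⟨p * CycloPQ.Mb p q b', CycloPQ.isGreatest hp hq hpq b', dvd_mul_right _ _⟩

end Pool.Agent.Results.MP_b384de_nt.DividesMaxHeight
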